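import Pool.Agent.Lib.MP_10e396_an.Main

set_option autoImplicit false

open MeasureTheory

namespace Pool.Agent.Results.MP_10e396_an.JumpInequality

open Pool.Agent.Lib.MP_10e396_an

/-- The `r = 2` jump inequality for the bilinear averages along `(n, P(n))`. -/
theorem result.{u} :
    ∀ (P : Polynomial ℤ) (p₁ p₂ p lam : ℝ), 2 ≤ P.natDegree → 1 < p₁ → 1 < p₂ → 1 ≤ p →
      p₁⁻¹ + p₂⁻¹ = p⁻¹ → 1 < lam →
      ∃ C : NNReal, ∀ (Ω : Type u) [MeasurableSpace Ω] (μ : Measure Ω) [SigmaFinite μ]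
        (T : Ω ≃ᵐ Ω), MeasurePreserving T μ μ →
        ∀ D : Set ℝ, (∀ a ∈ D, 1 ≤ a) → (∀ a ∈ D, ∀ b ∈ D, a < b → lam * a < b) →
        ∀ f g : Ω → ℂ, MemLp f (ENNReal.ofReal p₁) μ → MemLp g (ENNReal.ofReal p₂) μ →
        ∀ δ : ℝ, 0 < δ →
          AEMeasurable (fun x => jumps D δ fun N => bavg T.toEquiv P f g N x) μ ∧
          (∫⁻ x, (ENNReal.ofReal δ *
            (jumps D δ fun N => bavg T.toEquiv P f g N x) ^ (1 / 2 : ℝ)) ^ p ∂μ) ^ (1 / p) ≤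
            C * eLpNorm f (ENNReal.ofReal p₁) μ * eLpNorm g (ENNReal.ofReal p₂) μ :=
  final_holds

end Pool.Agent.Results.MP_10e396_an.JumpInequality
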